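import Pool.Agent.Helper54.PT.DefsE

/-! # Module S6: the character sum bound -/

set_option autoImplicit false

namespace Pool.Agent.Helper54.PT

open Polynomial Finset Filter Topology Module

namespace S6aux

/-- the pointwise trichotomy -/
theorem tri {K : Type} [Field K] [Fintype K] [DecidableEq K] (h2 : ringChar K ≠ 2) (c : ℕ)
    (hc : Fintype.card K = 2 * c + 1) (y : K) :
    ((quadraticChar K y : ℤ) : ℝ) = (if y ^ c = 1 then (1 : ℝ) else 0) -
        (if y ^ c = -1 then (1 : ℝ) else 0) ∧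
      (1 : ℝ) = (if y ^ c = 1 then (1 : ℝ) else 0) + (if y ^ c = -1 then (1 : ℝ) else 0) +
        (if y = 0 then (1 : ℝ) else 0) := by
  have hpow : ((quadraticChar K y : ℤ) : K) = y ^ c := by
    rw [quadraticChar_eq_pow_of_char_ne_two' h2, hc]
    congr 1
    omega
  have hne : (1 : K) ≠ -1 := (Ring.neg_one_ne_one_of_char_ne_two h2).symm
  have hc0 : c ≠ 0 := by
    intro h0
    have := Fintype.one_lt_card (α := K)
    omega
  by_cases hy : y = 0
  · subst hy
    rw [zero_pow hc0]
    simp
  · rcases quadraticChar_dichotomy hy with h | h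
    · rw [h] at hpow ⊢
      rw [← hpow]
      simp [hy, hne]
    · rw [h] at hpow ⊢
      rw [← hpow]
      simp [hy, hne.symm]

end S6aux

open Classical in
/-- S6: the character sum bound (uses S5) -/
theorem char_sum_bound
    (S5 : ∀ (K : Type) [Field K] [Fintype K] (c : ℕ), Fintype.card K = 2 * c + 1 →
      ∀ f : K[X], Squarefree f → 1 ≤ f.natDegree → 4 * (f.natDegree + 3) ^ 2 ≤ Fintype.card K →
      ∀ b : K, (b = 1 ∨ b = -1) → ((univ.filter fun x : K => f.eval x ^ c = b).card : ℝ) ≤
        Fintype.card K / 2 + (4 * f.natDegree + 5) * Real.sqrt (Fintype.card K))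
    (d : ℕ) (hd : 1 ≤ d) : ∃ C : ℝ, 1 ≤ C ∧ ∀ (K : Type) [Field K] [Fintype K]
    [DecidableEq K], ringChar K ≠ 2 → ∀ f : K[X], Squarefree f → f.natDegree = d →
      |∑ x : K, ((quadraticChar K (f.eval x) : ℤ) : ℝ)| ≤ C * Real.sqrt (Fintype.card K) := by
  refine ⟨2 * (4 * d + 5) + d + 2 * (d + 3), by
    have : (0 : ℝ) ≤ d := Nat.cast_nonneg d
    linarith, ?_⟩
  intro K _ _ _ h2 f hf hfd
  have hodd : Fintype.card K % 2 = 1 := FiniteField.odd_card_of_char_ne_two h2
  obtain ⟨c, hc⟩ : ∃ c, Fintype.card K = 2 * c + 1 := ⟨Fintype.card K / 2, by omega⟩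
  have hf0 : f ≠ 0 := by
    rintro rfl
    rw [natDegree_zero] at hfd
    omega
  set s : ℝ := Real.sqrt (Fintype.card K) with hs
  have hcard1 : (1 : ℝ) ≤ Fintype.card K := by
    have : 0 < Fintype.card K := Fintype.card_pos
    exact_mod_cast this
  have hs1 : 1 ≤ s := by
    rw [hs, Real.one_le_sqrt]
    exact hcard1
  have hss : s * s = Fintype.card K := Real.mul_self_sqrt (by positivity)
  have hd0 : (0 : ℝ) ≤ d := Nat.cast_nonneg d
  set N1 : ℝ := ((univ.filter fun x : K => f.eval x ^ c = 1).card : ℝ) with hN1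
  set N2 : ℝ := ((univ.filter fun x : K => f.eval x ^ c = -1).card : ℝ) with hN2
  set N0 : ℝ := ((univ.filter fun x : K => f.eval x = 0).card : ℝ) with hN0
  have hsum : ∑ x : K, ((quadraticChar K (f.eval x) : ℤ) : ℝ) = N1 - N2 := by
    rw [hN1, hN2, Finset.card_filter, Finset.card_filter]
    push_cast
    rw [← Finset.sum_sub_distrib]
    apply Finset.sum_congr rfl
    intro x _
    convert (S6aux.tri h2 c hc (f.eval x)).1
  have htot : (Fintype.card K : ℝ) = N1 + N2 + N0 := by
    rw [hN1, hN2, hN0, Finset.card_filter, Finset.card_filter, Finset.card_filter]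
    push_cast
    rw [← Finset.sum_add_distrib, ← Finset.sum_add_distrib]
    rw [show (Fintype.card K : ℝ) = ∑ x : K, (1 : ℝ) by simp]
    apply Finset.sum_congr rfl
    intro x _
    convert (S6aux.tri h2 c hc (f.eval x)).2
  have hN0' : N0 ≤ d := by
    rw [hN0, ← hfd]
    have h1 : (univ.filter fun x : K => f.eval x = 0) ⊆ f.roots.toFinset := by
      intro x hx
      rw [Finset.mem_filter] at hx
      rw [Multiset.mem_toFinset, mem_roots hf0]
      exact hx.2
    have h3 := (Finset.card_le_card h1).trans ((Multiset.toFinset_card_le _).trans (card_roots' f))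
    exact_mod_cast h3
  have hn1 : 0 ≤ N1 := Nat.cast_nonneg _
  have hn2 : 0 ≤ N2 := Nat.cast_nonneg _
  have hn0 : 0 ≤ N0 := Nat.cast_nonneg _
  rw [hsum]
  by_cases hbig : 4 * (f.natDegree + 3) ^ 2 ≤ Fintype.card K
  · have e1 : N1 ≤ Fintype.card K / 2 + (4 * d + 5) * s := by
      have := S5 K c hc f hf (by omega) hbig 1 (Or.inl rfl)
      rw [hfd, ← hs] at this
      convert this
    have e2 : N2 ≤ Fintype.card K / 2 + (4 * d + 5) * s := by
      have := S5 K c hc f hf (by omega) hbig (-1) (Or.inr rfl)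
      rw [hfd, ← hs] at this
      convert this
    have hds : (d : ℝ) ≤ d * s := le_mul_of_one_le_right hd0 hs1
    have hds2 : 0 ≤ 2 * (d + 3) * s := by positivity
    rw [abs_le]
    constructor <;> nlinarith
  · have hlt : (Fintype.card K : ℝ) ≤ (2 * (d + 3)) ^ 2 := by
      rw [hfd] at hbig
      have h3 : Fintype.card K ≤ (2 * (d + 3)) ^ 2 := by
        have : (2 * (d + 3)) ^ 2 = 4 * (d + 3) ^ 2 := by ring
        omega
      exact_mod_cast h3
    have hs2 : s ≤ 2 * (d + 3) := by
      rw [hs]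
      exact (Real.sqrt_le_sqrt hlt).trans (by rw [Real.sqrt_sq (by positivity)])
    have h5 : s * s ≤ 2 * (d + 3) * s := mul_le_mul_of_nonneg_right hs2 (by linarith)
    have h6 : 0 ≤ (2 * (4 * d + 5) + d) * s := by positivity
    rw [abs_le]
    constructor <;> nlinarith

end Pool.Agent.Helper54.PT
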